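import Mathlib

set_option autoImplicit false

/-! Divisors of a number: the average of the logarithms of the pairwise greatest common divisors. -/

namespace Pool.Agent.V11122.Gcd

open Finset

open scoped ArithmeticFunction.vonMangoldt

/-- Cauchy–Schwarz for the measure `Λ` on the divisors of `U`. -/
theorem sum_log_sq_le {ι : Type*} (s : Finset ι) (a : ι → ℕ) (U : ℕ) (hU : U ≠ 0)
    (ha : ∀ i ∈ s, a i ∣ U) :
    (∑ i ∈ s, Real.log (a i)) ^ 2 ≤
      Real.log U * ∑ i ∈ s, ∑ j ∈ s, Real.log (Nat.gcd (a i) (a j)) := by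
  classical
  have hdiv : ∀ m : ℕ, m ∣ U → Real.log m =
      ∑ d ∈ U.divisors, (if d ∣ m then ArithmeticFunction.vonMangoldt d else 0) := by
    intro m hm
    rw [← ArithmeticFunction.vonMangoldt_sum, ← Finset.sum_filter]
    congr 1
    ext d
    simp only [Nat.mem_divisors, Finset.mem_filter]
    constructor
    · rintro ⟨h1, h2⟩; exact ⟨⟨h1.trans hm, hU⟩, h1⟩
    · rintro ⟨⟨h1, h2⟩, h3⟩; exact ⟨h3, ne_zero_of_dvd_ne_zero hU hm⟩
  set N : ℕ → ℝ := fun d => ∑ i ∈ s, if d ∣ a i then (1 : ℝ) else 0 with hN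
  have h1 : ∑ i ∈ s, Real.log (a i) = ∑ d ∈ U.divisors, ArithmeticFunction.vonMangoldt d * N d := by
    rw [Finset.sum_congr rfl (fun i hi => hdiv (a i) (ha i hi)), Finset.sum_comm]
    refine Finset.sum_congr rfl fun d _ => ?_
    rw [hN, Finset.mul_sum]
    refine Finset.sum_congr rfl fun i _ => ?_
    split_ifs <;> simp
  have h2 : ∑ i ∈ s, ∑ j ∈ s, Real.log (Nat.gcd (a i) (a j))
      = ∑ d ∈ U.divisors, ArithmeticFunction.vonMangoldt d * (N d * N d) := by
    have : ∀ i ∈ s, ∀ j ∈ s, Real.log (Nat.gcd (a i) (a j)) = ∑ d ∈ U.divisors,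
        ArithmeticFunction.vonMangoldt d *
          ((if d ∣ a i then (1 : ℝ) else 0) * (if d ∣ a j then (1 : ℝ) else 0)) := by
      intro i hi j hj
      rw [hdiv _ ((Nat.gcd_dvd_left _ _).trans (ha i hi))]
      refine Finset.sum_congr rfl fun d _ => ?_
      have h := @Nat.dvd_gcd_iff d (a i) (a j)
      by_cases h1 : d ∣ a i <;> by_cases h2 : d ∣ a j <;> simp [h, h1, h2]
    rw [Finset.sum_congr rfl (fun i hi => Finset.sum_congr rfl (fun j hj => this i hi j hj))]
    rw [Finset.sum_congr rfl (fun i _ => Finset.sum_comm), Finset.sum_comm]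
    refine Finset.sum_congr rfl fun d _ => ?_
    simp only [hN]
    rw [Finset.sum_mul_sum]
    simp only [Finset.mul_sum]
  have h3 : Real.log U = ∑ d ∈ U.divisors, ArithmeticFunction.vonMangoldt d := by
    rw [ArithmeticFunction.vonMangoldt_sum]
  rw [h1, h2, h3]
  refine Finset.sum_sq_le_sum_mul_sum_of_sq_le_mul _ (fun d _ => ArithmeticFunction.vonMangoldt_nonneg)
    (fun d _ => ?_) (fun d _ => le_of_eq ?_)
  · exact mul_nonneg ArithmeticFunction.vonMangoldt_nonneg (mul_self_nonneg _)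
  · ring

/-- **Core inequality.** Divisors `a i ≥ √U` of `U`, as many pairs as possible with a small greatest
common divisor. -/
theorem core {ι : Type*} (s : Finset ι) (a : ι → ℕ) (U : ℕ) (hU : 1 < U)
    (ha : ∀ i ∈ s, a i ∣ U) (hs : ∀ i ∈ s, U ≤ a i ^ 2) (θ g τ : ℝ) (h0 : 0 ≤ θ) (h1 : θ < 1 / 2)
    (hg : g ≤ τ * Real.log U) (hg0 : 0 ≤ g)
    (bad : ι → ι → Prop) [∀ i j, Decidable (bad i j)]
    (hgood : ∀ i ∈ s, ∀ j ∈ s, ¬ bad i j → Real.log (Nat.gcd (a i) (a j)) ≤
      g + θ * max (Real.log (a i)) (Real.log (a j))) :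
    (s.card : ℝ) ^ 2 * ((1 - 2 * θ) / 4 - τ) ≤ ∑ i ∈ s, ((s.filter fun j => bad i j).card : ℝ) := by
  classical
  have hU0 : U ≠ 0 := by omega
  set L : ℝ := Real.log U with hL
  have hLpos : 0 < L := Real.log_pos (by exact_mod_cast hU)
  set x : ι → ℝ := fun i => Real.log (a i) with hx
  have ha0 : ∀ i ∈ s, 0 < a i := fun i hi => Nat.pos_of_dvd_of_pos (ha i hi) (by omega)
  have hxL : ∀ i ∈ s, x i ≤ L := by
    intro i hi
    apply Real.log_le_log
    · exact_mod_cast ha0 i hi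
    · exact_mod_cast Nat.le_of_dvd (by omega) (ha i hi)
  have hxl : ∀ i ∈ s, L / 2 ≤ x i := by
    intro i hi
    have h : L ≤ Real.log ((a i : ℝ) ^ 2) := by
      apply Real.log_le_log
      · exact_mod_cast (by omega : 0 < U)
      · exact_mod_cast hs i hi
    rw [Real.log_pow] at h
    push_cast at h
    simp only [hx]
    linarith
  have hgcdL : ∀ i ∈ s, ∀ j, Real.log (Nat.gcd (a i) (a j)) ≤ L := by
    intro i hi j
    apply Real.log_le_log
    · exact_mod_cast Nat.gcd_pos_of_pos_left _ (ha0 i hi)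
    · exact_mod_cast Nat.le_of_dvd (by omega) ((Nat.gcd_dvd_left _ _).trans (ha i hi))
  set S : ℝ := ∑ i ∈ s, x i with hS
  set r : ℝ := (s.card : ℝ) with hr
  have hr0 : 0 ≤ r := Nat.cast_nonneg _
  have hSl : r * (L / 2) ≤ S := by
    have := Finset.card_nsmul_le_sum s x (L / 2) hxl
    rwa [nsmul_eq_mul] at this
  have hterm : ∀ i ∈ s, ∀ j ∈ s, Real.log (Nat.gcd (a i) (a j)) ≤
      (if bad i j then L else 0) + (g + θ * (x i + x j - L / 2)) := by
    intro i hi j hj
    have hi1 := hxl i hi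
    have hj1 := hxl j hj
    have hpos : 0 ≤ g + θ * (x i + x j - L / 2) := by
      have : 0 ≤ x i + x j - L / 2 := by linarith
      positivity
    split_ifs with hb
    · have := hgcdL i hi j
      linarith
    · have h2 := hgood i hi j hj hb
      have h3 : max (Real.log (a i)) (Real.log (a j)) ≤ x i + x j - L / 2 := by
        apply max_le
        · simp only [hx] at *; linarith
        · simp only [hx] at *; linarith
      have h4 := mul_le_mul_of_nonneg_left h3 h0
      linarith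
  have hsum : ∑ i ∈ s, ∑ j ∈ s, Real.log (Nat.gcd (a i) (a j)) ≤
      L * (∑ i ∈ s, ((s.filter fun j => bad i j).card : ℝ)) +
        (r ^ 2 * g + θ * (2 * r * S - r ^ 2 * (L / 2))) := by
    calc ∑ i ∈ s, ∑ j ∈ s, Real.log (Nat.gcd (a i) (a j))
        ≤ ∑ i ∈ s, ∑ j ∈ s, ((if bad i j then L else 0) + (g + θ * (x i + x j - L / 2))) :=
          Finset.sum_le_sum fun i hi => Finset.sum_le_sum fun j hj => hterm i hi j hj
      _ = _ := by
          simp only [Finset.sum_add_distrib, ← Finset.mul_sum, Finset.sum_sub_distrib,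
            Finset.sum_const, nsmul_eq_mul, ← Finset.sum_filter]
          rw [← hr, ← hS, ← Finset.sum_mul]
          ring
  have hcs := sum_log_sq_le s a U hU0 ha
  set B : ℝ := ∑ i ∈ s, ((s.filter fun j => bad i j).card : ℝ) with hB
  have hcs' : S ^ 2 ≤ L * (L * B + (r ^ 2 * g + θ * (2 * r * S - r ^ 2 * (L / 2)))) :=
    hcs.trans (mul_le_mul_of_nonneg_left hsum hLpos.le)
  have hθ : 0 < 1 - 2 * θ := by linarith
  have hg' : r ^ 2 * g ≤ r ^ 2 * (τ * L) := mul_le_mul_of_nonneg_left hg (by positivity)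
  obtain ⟨t, ht, hSt⟩ : ∃ t : ℝ, 0 ≤ t ∧ S = r * (L / 2) + t := ⟨S - r * (L / 2), by linarith, by ring⟩
  have hkey : L ^ 2 * (r ^ 2 * ((1 - 2 * θ) / 4 - τ)) ≤ L ^ 2 * B := by
    have e1 : L * (r ^ 2 * g) ≤ L * (r ^ 2 * (τ * L)) :=
      mul_le_mul_of_nonneg_left hg' hLpos.le
    have e2 : 0 ≤ r * L * t * (1 - 2 * θ) := by positivity
    have e3 : 0 ≤ t ^ 2 := sq_nonneg t
    rw [hSt] at hcs'
    nlinarith
  exact le_of_mul_le_mul_left hkey (by positivity)

end Pool.Agent.V11122.Gcd
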