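import Pool.Agent.V11122.Gcd.Main

set_option autoImplicit false

/-! The multiplicative energy and the product set. -/

namespace Pool.Agent.V11122.Gcd

open Finset

/-- the quadruples `(a, b), (c, d)` with `a, c ∈ A`, `b, d ∈ B` and `a * b = c * d` -/
def quads (A B : Finset ℤ) : Finset ((ℤ × ℤ) × (ℤ × ℤ)) :=
  ((A ×ˢ B) ×ˢ (A ×ˢ B)).filter fun w => w.1.1 * w.1.2 = w.2.1 * w.2.2

open Classical in
/-- the quadruples `(a, b), (c, d)` with `a * b = c * d` in which `a, c` are close or `b, d` are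
close -/
noncomputable def closeQuads (θ G : ℝ) (A B : Finset ℤ) : Finset ((ℤ × ℤ) × (ℤ × ℤ)) :=
  (quads A B).filter fun w => (Close θ G w.1.1 w.2.1 ∨ Close θ G w.1.2 w.2.2)

open Classical in
/-- the pairs of close elements of `A` -/
noncomputable def closePairs (θ G : ℝ) (A : Finset ℤ) : Finset (ℤ × ℤ) :=
  (A ×ˢ A).filter fun w => Close θ G w.1 w.2

/-- the product set -/
def prods (A B : Finset ℤ) : Finset ℤ := (A ×ˢ B).image fun p => p.1 * p.2

theorem card_quads (A B : Finset ℤ) :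
    (quads A B).card = ∑ u ∈ prods A B, (facs A B u).card ^ 2 := by
  classical
  rw [Finset.card_eq_sum_card_fiberwise (f := fun w : (ℤ × ℤ) × (ℤ × ℤ) => w.1.1 * w.1.2)
    (t := prods A B)]
  · refine Finset.sum_congr rfl fun u _ => ?_
    rw [sq, ← Finset.card_product]
    congr 1
    ext w
    simp only [quads, facs, Finset.mem_filter, Finset.mem_product]
    constructor
    · rintro ⟨⟨⟨h1, h2⟩, h3⟩, h4⟩
      exact ⟨⟨h1, h4⟩, ⟨h2, by rw [← h3]; exact h4⟩⟩
    · rintro ⟨⟨h1, h4⟩, ⟨h2, h5⟩⟩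
      exact ⟨⟨⟨h1, h2⟩, by rw [h4, h5]⟩, h4⟩
  · intro w hw
    have hw' := Finset.mem_filter.mp hw
    exact Finset.mem_image.mpr ⟨w.1, (Finset.mem_product.mp hw'.1).1, rfl⟩

theorem card_closeQuads (θ G : ℝ) (A B : Finset ℤ) :
    (closeQuads θ G A B).card = ∑ u ∈ prods A B, (closeFacs θ G A B u).card := by
  classical
  rw [Finset.card_eq_sum_card_fiberwise (f := fun w : (ℤ × ℤ) × (ℤ × ℤ) => w.1.1 * w.1.2)
    (t := prods A B)]
  · refine Finset.sum_congr rfl fun u _ => ?_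
    congr 1
    ext w
    simp only [closeQuads, closeFacs, quads, facs, Finset.mem_filter, Finset.mem_product]
    constructor
    · rintro ⟨⟨⟨⟨h1, h2⟩, h3⟩, h5⟩, h4⟩
      exact ⟨⟨⟨h1, h4⟩, ⟨h2, by rw [← h3]; exact h4⟩⟩, h5⟩
    · rintro ⟨⟨⟨h1, h4⟩, ⟨h2, h5⟩⟩, h6⟩
      exact ⟨⟨⟨⟨h1, h2⟩, by rw [h4, h5]⟩, h6⟩, h4⟩
  · intro w hw
    have hw' := Finset.mem_filter.mp (Finset.mem_filter.mp hw).1
    exact Finset.mem_image.mpr ⟨w.1, (Finset.mem_product.mp hw'.1).1, rfl⟩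

theorem prods_ne {A B : Finset ℤ} (hA : (0 : ℤ) ∉ A) (hB : (0 : ℤ) ∉ B) {u : ℤ}
    (hu : u ∈ prods A B) : u ≠ 0 := by
  obtain ⟨p, hp, rfl⟩ := Finset.mem_image.mp hu
  have hpm := Finset.mem_product.mp hp
  exact mul_ne_zero (fun h0 => hA (h0 ▸ hpm.1)) (fun h0 => hB (h0 ▸ hpm.2))

/-- **Energy inequality** from the pointwise one. -/
theorem energy {θ G N : ℝ} {A B : Finset ℤ} (hA : (0 : ℤ) ∉ A) (hB : (0 : ℤ) ∉ B)
    (h : ∀ u : ℤ, u ≠ 0 → ((facs A B u).card : ℝ) ^ 2 ≤ N * ((closeFacs θ G A B u).card : ℝ)) :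
    ((quads A B).card : ℝ) ≤ N * ((closeQuads θ G A B).card : ℝ) := by
  rw [card_quads, card_closeQuads]
  push_cast
  rw [Finset.mul_sum]
  exact Finset.sum_le_sum fun u hu => h u (prods_ne hA hB hu)

/-- Cauchy–Schwarz -/
theorem card_sq_le (A B : Finset ℤ) :
    ((A.card : ℝ) * B.card) ^ 2 ≤ ((prods A B).card : ℝ) * ((quads A B).card : ℝ) := by
  have h1 : A.card * B.card = ∑ u ∈ prods A B, (facs A B u).card := by
    rw [← Finset.card_product]
    exact Finset.card_eq_sum_card_image _ _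
  have h2 : ((A.card : ℝ) * B.card) = ∑ u ∈ prods A B, ((facs A B u).card : ℝ) := by
    exact_mod_cast h1
  rw [h2, card_quads]
  push_cast
  exact sq_sum_le_card_mul_sum_sq

open Classical in
theorem card_closeQuads_le (θ G : ℝ) {A B : Finset ℤ} (hA : (0 : ℤ) ∉ A) (hB : (0 : ℤ) ∉ B) :
    (closeQuads θ G A B).card ≤ (closePairs θ G A).card * B.card +
      (closePairs θ G B).card * A.card := by
  have hsub : closeQuads θ G A B ⊆
      ((quads A B).filter fun w => Close θ G w.1.1 w.2.1) ∪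
      ((quads A B).filter fun w => Close θ G w.1.2 w.2.2) := by
    rw [closeQuads, Finset.filter_or]
  refine (Finset.card_le_card hsub).trans ((Finset.card_union_le _ _).trans (add_le_add ?_ ?_))
  · rw [← Finset.card_product]
    refine Finset.card_le_card_of_injOn (fun w => ((w.1.1, w.2.1), w.1.2)) ?_ ?_
    · intro w hw
      have hw' := Finset.mem_filter.mp hw
      have hq := Finset.mem_product.mp (Finset.mem_filter.mp hw'.1).1
      have h1 := Finset.mem_product.mp hq.1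
      have h2 := Finset.mem_product.mp hq.2
      exact Finset.mem_product.mpr ⟨Finset.mem_filter.mpr
        ⟨Finset.mem_product.mpr ⟨h1.1, h2.1⟩, hw'.2⟩, h1.2⟩
    · intro w hw w' hw' h
      have e := Finset.mem_filter.mp (Finset.mem_filter.mp hw).1
      have e' := Finset.mem_filter.mp (Finset.mem_filter.mp hw').1
      simp only [Prod.mk.injEq] at h
      obtain ⟨⟨h1, h2⟩, h3⟩ := h
      have hne : w.2.1 ≠ 0 := fun h0 =>
        hA (h0 ▸ (Finset.mem_product.mp (Finset.mem_product.mp e.1).2).1)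
      have h4 : w.2.1 * w.2.2 = w.2.1 * w'.2.2 := by
        rw [← e.2, h1, h3, e'.2, h2]
      have h5 := mul_left_cancel₀ hne h4
      exact Prod.ext (Prod.ext h1 h3) (Prod.ext h2 h5)
  · rw [← Finset.card_product]
    refine Finset.card_le_card_of_injOn (fun w => ((w.1.2, w.2.2), w.1.1)) ?_ ?_
    · intro w hw
      have hw' := Finset.mem_filter.mp hw
      have hq := Finset.mem_product.mp (Finset.mem_filter.mp hw'.1).1
      have h1 := Finset.mem_product.mp hq.1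
      have h2 := Finset.mem_product.mp hq.2
      exact Finset.mem_product.mpr ⟨Finset.mem_filter.mpr
        ⟨Finset.mem_product.mpr ⟨h1.2, h2.2⟩, hw'.2⟩, h1.1⟩
    · intro w hw w' hw' h
      have e := Finset.mem_filter.mp (Finset.mem_filter.mp hw).1
      have e' := Finset.mem_filter.mp (Finset.mem_filter.mp hw').1
      simp only [Prod.mk.injEq] at h
      obtain ⟨⟨h1, h2⟩, h3⟩ := h
      have hne : w.2.2 ≠ 0 := fun h0 =>
        hB (h0 ▸ (Finset.mem_product.mp (Finset.mem_product.mp e.1).2).2)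
      have h4 : w.2.1 * w.2.2 = w'.2.1 * w.2.2 := by
        rw [← e.2, h1, h3, e'.2, h2]
      have h5 := mul_right_cancel₀ hne h4
      exact Prod.ext (Prod.ext h3 h1) (Prod.ext h5 h2)

/-- **Product sets.** -/
theorem prod_bound {θ G N : ℝ} (hN : 0 ≤ N) {A B : Finset ℤ} (hA : (0 : ℤ) ∉ A) (hB : (0 : ℤ) ∉ B)
    (h : ∀ u : ℤ, u ≠ 0 → ((facs A B u).card : ℝ) ^ 2 ≤ N * ((closeFacs θ G A B u).card : ℝ)) :
    ((A.card : ℝ) * B.card) ^ 2 ≤ N * (((closePairs θ G A).card : ℝ) * B.card +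
      ((closePairs θ G B).card : ℝ) * A.card) * ((prods A B).card : ℝ) := by
  have h1 := card_sq_le A B
  have h2 := energy hA hB h
  have h3 : ((closeQuads θ G A B).card : ℝ) ≤ ((closePairs θ G A).card : ℝ) * B.card +
      ((closePairs θ G B).card : ℝ) * A.card := by exact_mod_cast card_closeQuads_le θ G hA hB
  have h4 : ((quads A B).card : ℝ) ≤ N * (((closePairs θ G A).card : ℝ) * B.card +
      ((closePairs θ G B).card : ℝ) * A.card) := h2.trans (mul_le_mul_of_nonneg_left h3 hN)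
  calc ((A.card : ℝ) * B.card) ^ 2 ≤ ((prods A B).card : ℝ) * ((quads A B).card : ℝ) := h1
    _ ≤ ((prods A B).card : ℝ) * (N * (((closePairs θ G A).card : ℝ) * B.card +
      ((closePairs θ G B).card : ℝ) * A.card)) := mul_le_mul_of_nonneg_left h4 (Nat.cast_nonneg _)
    _ = _ := by ring

open Classical in
/-- **Few pairs with a large greatest common divisor, large product set.** -/
theorem large_products (θ C δ ε : ℝ) (h0 : 0 ≤ θ) (h1 : θ < 1 / 2) (hC : 0 ≤ C) (hδ : 0 ≤ δ)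
    (hε : 0 < ε) : ∃ c : ℝ, 0 < c ∧ ∀ A : Finset ℤ, A.Nonempty → (0 : ℤ) ∉ A →
      (((A ×ˢ A).filter fun w => (A.card : ℝ) ^ C * ((max |w.1| |w.2| : ℤ) : ℝ) ^ θ <
        (Int.gcd w.1 w.2 : ℝ)).card : ℝ) ≤ (A.card : ℝ) ^ (1 + δ) →
      c * (A.card : ℝ) ^ (2 - δ - ε) ≤ ((prods A A).card : ℝ) := by
  obtain ⟨M, hM, hfac⟩ := facs_sq θ (ε / (C + 1)) h0 h1 (by positivity)
  refine ⟨1 / (4 * M), by positivity, fun A hne hA hP => ?_⟩
  have hn1 : (1 : ℝ) ≤ A.card := by exact_mod_cast hne.card_pos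
  have hn0 : (0 : ℝ) < A.card := by linarith
  set n : ℝ := (A.card : ℝ) with hn
  have hG : 1 ≤ n ^ C := Real.one_le_rpow hn1 hC
  have h2 := prod_bound (N := M * (n ^ C) ^ (ε / (C + 1))) (θ := θ) (G := n ^ C) (by positivity) hA hA
    (fun u hu => hfac A A (n ^ C) u hG hu)
  have h3 : ((closePairs θ (n ^ C) A).card : ℝ) ≤ 2 * n ^ (1 + δ) := by
    have hsub : closePairs θ (n ^ C) A ⊆ (A.image fun a => (a, a)) ∪
        ((A ×ˢ A).filter fun w => n ^ C * ((max |w.1| |w.2| : ℤ) : ℝ) ^ θ <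
        (Int.gcd w.1 w.2 : ℝ)) := by
      intro w hw
      rw [closePairs, Finset.mem_filter] at hw
      rw [Finset.mem_union]
      rcases hw.2 with h | h
      · left
        exact Finset.mem_image.mpr ⟨w.1, (Finset.mem_product.mp hw.1).1, Prod.ext rfl h⟩
      · right
        exact Finset.mem_filter.mpr ⟨hw.1, h⟩
    have h4 := (Finset.card_le_card hsub).trans (Finset.card_union_le _ _)
    have h5 : ((closePairs θ (n ^ C) A).card : ℝ) ≤ ((A.image fun a => (a, a)).card : ℝ) +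
        (((A ×ˢ A).filter fun w => n ^ C * ((max |w.1| |w.2| : ℤ) : ℝ) ^ θ <
        (Int.gcd w.1 w.2 : ℝ)).card : ℝ) := by exact_mod_cast h4
    have h6 : ((A.image fun a => (a, a)).card : ℝ) ≤ n := by
      rw [hn]
      exact_mod_cast Finset.card_image_le
    have h7 : n ≤ n ^ (1 + δ) := by
      calc n = n ^ (1 : ℝ) := (Real.rpow_one n).symm
        _ ≤ n ^ (1 + δ) := Real.rpow_le_rpow_of_exponent_le hn1 (by linarith)
    linarith
  have h8 : (n ^ C) ^ (ε / (C + 1)) ≤ n ^ ε := by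
    rw [← Real.rpow_mul hn0.le]
    apply Real.rpow_le_rpow_of_exponent_le hn1
    rw [mul_div_assoc', div_le_iff₀ (by linarith)]
    nlinarith
  set Q : ℝ := ((prods A A).card : ℝ) with hQ
  have hQ0 : 0 ≤ Q := Nat.cast_nonneg _
  have h9 : n ^ (4 : ℝ) ≤ 4 * M * n ^ (ε + (1 + δ) + 1) * Q := by
    have e1 : (n * n) ^ 2 = n ^ (4 : ℝ) := by
      rw [show (4 : ℝ) = ((4 : ℕ) : ℝ) by norm_num, Real.rpow_natCast]
      ring
    have e2 : n ^ (ε + (1 + δ) + 1) = n ^ ε * n ^ (1 + δ) * n := by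
      rw [Real.rpow_add hn0, Real.rpow_add hn0 ε, Real.rpow_one]
    rw [← e1, e2]
    have hx : 0 < n ^ (1 + δ) := Real.rpow_pos_of_pos hn0 _
    have hy : 0 < n ^ ε := Real.rpow_pos_of_pos hn0 _
    have hz : 0 < (n ^ C) ^ (ε / (C + 1)) := by positivity
    calc (n * n) ^ 2 ≤ _ := h2
      _ ≤ M * n ^ ε * (2 * n ^ (1 + δ) * n + 2 * n ^ (1 + δ) * n) * Q := by
          gcongr
      _ = 4 * M * (n ^ ε * n ^ (1 + δ) * n) * Q := by ring
  have h10 : n ^ (2 - δ - ε) * n ^ (ε + (1 + δ) + 1) = n ^ (4 : ℝ) := by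
    rw [← Real.rpow_add hn0]
    congr 1
    ring
  have h11 : 0 < n ^ (ε + (1 + δ) + 1) := Real.rpow_pos_of_pos hn0 _
  rw [← h10] at h9
  have h12 : n ^ (2 - δ - ε) ≤ 4 * M * Q := by
    have : n ^ (2 - δ - ε) * n ^ (ε + (1 + δ) + 1) ≤ 4 * M * Q * n ^ (ε + (1 + δ) + 1) := by
      linarith
    exact le_of_mul_le_mul_right this h11
  rw [div_mul_eq_mul_div, one_mul, div_le_iff₀ (by positivity)]
  linarith

end Pool.Agent.V11122.Gcd
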