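import Pool.Agent.V11122.Gcd.Main

set_option autoImplicit false

/-! The exponent one half is sharp. -/

namespace Pool.Agent.V11122.Gcd

open Finset

theorem two_mul_card_flip {m : ℕ} (j : Fin m) (e : Bool) (P : (Fin m → Bool) → Prop)
    [DecidablePred P] (hP : ∀ v b, P (Function.update v j b) ↔ P v) :
    2 * (univ.filter fun v : Fin m → Bool => v j = e ∧ P v).card = (univ.filter P).card := by
  classical
  have h1 : (univ.filter fun v : Fin m → Bool => v j = e ∧ P v).card =
      (univ.filter fun v : Fin m → Bool => v j = (!e) ∧ P v).card := by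
    refine Finset.card_nbij' (fun v => Function.update v j (!e)) (fun v => Function.update v j e)
      ?_ ?_ ?_ ?_
    · intro v hv
      have hv' := (Finset.mem_filter.mp hv).2
      exact Finset.mem_filter.mpr ⟨Finset.mem_univ _, by simp, (hP _ _).mpr hv'.2⟩
    · intro v hv
      have hv' := (Finset.mem_filter.mp hv).2
      exact Finset.mem_filter.mpr ⟨Finset.mem_univ _, by simp, (hP _ _).mpr hv'.2⟩
    · intro v hv
      have hv' := (Finset.mem_filter.mp hv).2
      simp only [Function.update_idem]
      rw [← hv'.1, Function.update_eq_self]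
    · intro v hv
      have hv' := (Finset.mem_filter.mp hv).2
      simp only [Function.update_idem]
      rw [← hv'.1, Function.update_eq_self]
  have h2 : (univ.filter P).card = (univ.filter fun v : Fin m → Bool => v j = e ∧ P v).card +
      (univ.filter fun v : Fin m → Bool => v j = (!e) ∧ P v).card := by
    rw [← Finset.card_union_of_disjoint]
    · congr 1
      ext v
      simp only [Finset.mem_filter, Finset.mem_univ, true_and, Finset.mem_union]
      constructor
      · intro h
        by_cases hv : v j = e
        · exact Or.inl ⟨hv, h⟩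
        · right
          refine ⟨?_, h⟩
          cases hj : v j <;> cases e <;> simp_all
      · rintro (h | h)
        · exact h.2
        · exact h.2
    · rw [Finset.disjoint_left]
      intro v hv hv'
      have e1 := (Finset.mem_filter.mp hv).2.1
      have e2 := (Finset.mem_filter.mp hv').2.1
      rw [e1] at e2
      cases e <;> simp at e2
  omega

/-- greatest common divisors of products of pairwise coprime numbers -/
theorem gcd_prod {I : Type*} [DecidableEq I] (x : I → ℕ)
    (hx : ∀ v w, v ≠ w → Nat.Coprime (x v) (x w)) (S S' : Finset I) :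
    Nat.gcd (∏ v ∈ S, x v) (∏ v ∈ S', x v) = ∏ v ∈ S ∩ S', x v := by
  have h1 : ∏ v ∈ S, x v = (∏ v ∈ S ∩ S', x v) * ∏ v ∈ S \ S', x v := by
    rw [← Finset.prod_union]
    · rw [Finset.union_comm, Finset.sdiff_union_inter]
    · exact (Finset.disjoint_sdiff_inter S S').symm
  have h2 : ∏ v ∈ S', x v = (∏ v ∈ S ∩ S', x v) * ∏ v ∈ S' \ S, x v := by
    rw [← Finset.prod_union]
    · rw [Finset.union_comm, Finset.inter_comm, Finset.sdiff_union_inter]
    · rw [Finset.inter_comm]
      exact (Finset.disjoint_sdiff_inter S' S).symm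
  have h3 : Nat.Coprime (∏ v ∈ S \ S', x v) (∏ v ∈ S' \ S, x v) := by
    apply Nat.Coprime.prod_left
    intro v hv
    apply Nat.Coprime.prod_right
    intro w hw
    apply hx
    rintro rfl
    exact (Finset.mem_sdiff.mp hv).2 (Finset.mem_sdiff.mp hw).1
  rw [h1, h2, Nat.gcd_mul_left, h3, mul_one]

theorem sharp (θ : ℝ) (hθ : 1 / 2 < θ) (N : ℕ) : ∃ A : Finset ℤ, (∀ a ∈ A, 0 < a) ∧
    (∀ a ∈ A, ∀ c ∈ A, a ≠ c → (Int.gcd a c : ℝ) ≤ ((max |a| |c| : ℤ) : ℝ) ^ θ) ∧
    ∃ u : ℤ, u ≠ 0 ∧ N ≤ (facs A A u).card := by
  classical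
  set m : ℕ := N with hm
  set I := Fin m → Bool with hI
  set n : ℕ := Fintype.card I with hn
  have hn0 : 0 < n := Fintype.card_pos
  set s : ℝ := 2 * θ - 1 with hs
  have hs0 : 0 < s := by simp only [hs]; linarith
  obtain ⟨Y, hY⟩ := exists_nat_ge (((n : ℝ) + 1) ^ (1 / s))
  set T : ℕ := n.factorial * (Y + 1) with hT
  have hT1 : 1 ≤ T := Nat.mul_pos (Nat.factorial_pos _) (by omega)
  have hTY : Y ≤ T := by
    calc Y ≤ Y + 1 := by omega
      _ ≤ n.factorial * (Y + 1) := Nat.le_mul_of_pos_left _ (Nat.factorial_pos _)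
  have hTs : (n : ℝ) + 1 ≤ (T : ℝ) ^ s := by
    have h1 : ((n : ℝ) + 1) ^ (1 / s) ≤ (T : ℝ) := hY.trans (by exact_mod_cast hTY)
    have h2 := Real.rpow_le_rpow (by positivity) h1 hs0.le
    rwa [← Real.rpow_mul (by positivity), one_div_mul_cancel hs0.ne', Real.rpow_one] at h2
  let e : I ≃ Fin n := Fintype.equivFin I
  let x : I → ℕ := fun v => ((e v : ℕ) + 1) * T + 1
  have hxcop : ∀ v w, v ≠ w → Nat.Coprime (x v) (x w) := by
    have key : ∀ v w, (e v : ℕ) < e w → Nat.Coprime (x v) (x w) := by
      intro v w h
      apply Nat.coprime_mul_succ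
      have : ((e w : ℕ) + 1) - ((e v : ℕ) + 1) = (e w : ℕ) - e v := by omega
      rw [this]
      refine Dvd.dvd.mul_right (Nat.dvd_factorial (by omega) ?_) _
      have := (e w).isLt
      omega
    intro v w hvw
    rcases lt_trichotomy (e v : ℕ) (e w : ℕ) with h | h | h
    · exact key v w h
    · exact absurd (e.injective (Fin.ext h)) hvw
    · exact (key w v h).symm
  have hxl : ∀ v, T ≤ x v := by
    intro v
    simp only [x]
    nlinarith
  have hx1 : ∀ v, 1 < x v := by
    intro v
    simp only [x]
    nlinarith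
  have hxu : ∀ v, x v ≤ (n + 1) * T := by
    intro v
    simp only [x]
    have := (e v).isLt
    have h2 : ((e v : ℕ) + 1) * T ≤ n * T := Nat.mul_le_mul_right _ (by omega)
    linarith
  let S : Fin m × Bool → Finset I := fun p => univ.filter fun v => v p.1 = p.2
  let a : Fin m × Bool → ℕ := fun p => ∏ v ∈ S p, x v
  have hapos : ∀ p, 0 < a p := fun p => Finset.prod_pos fun v _ => by have := hx1 v; omega
  have hcardS : ∀ p, 2 * (S p).card = n := by
    intro p
    have h := two_mul_card_flip p.1 p.2 (fun _ : Fin m → Bool => True) (fun _ _ => Iff.rfl)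
    have h2 : (univ.filter fun _ : Fin m → Bool => True).card = n := by
      rw [Finset.filter_true, Finset.card_univ]
    rw [h2] at h
    rw [← h]
    congr 2
    ext v
    simp [S]
  have hcardSS : ∀ p q : Fin m × Bool, p ≠ q → 4 * (S p ∩ S q).card ≤ n := by
    rintro ⟨j, b⟩ ⟨j', b'⟩ hpq
    by_cases hj : j = j'
    · subst hj
      have : S (j, b) ∩ S (j, b') = ∅ := by
        rw [Finset.eq_empty_iff_forall_notMem]
        intro v hv
        rw [Finset.mem_inter] at hv
        have e1 := (Finset.mem_filter.mp hv.1).2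
        have e2 := (Finset.mem_filter.mp hv.2).2
        simp only at e1 e2
        exact hpq (by rw [← e1, ← e2])
      rw [this]
      simp
    · have h1 := two_mul_card_flip j b (fun v : I => v j' = b') (fun v c => by
        rw [Function.update_of_ne (Ne.symm hj)])
      have h2 := hcardS (j', b')
      have h3 : S (j, b) ∩ S (j', b') = univ.filter fun v : Fin m → Bool => v j = b ∧ v j' = b' := by
        ext v
        simp [S]
      rw [h3]
      simp only [S] at h2
      have h4 : (univ.filter fun v : Fin m → Bool => v j' = b').card =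
          (univ.filter fun v : I => v j' = b').card := rfl
      omega
  set u : ℕ := ∏ v, x v with hu
  refine ⟨univ.image fun p : Fin m × Bool => (a p : ℤ), ?_, ?_, (u : ℤ), ?_, ?_⟩
  · intro z hz
    obtain ⟨p, -, rfl⟩ := Finset.mem_image.mp hz
    exact_mod_cast hapos p
  · intro z hz w hw hne
    obtain ⟨p, -, rfl⟩ := Finset.mem_image.mp hz
    obtain ⟨q, -, rfl⟩ := Finset.mem_image.mp hw
    have hpq : p ≠ q := fun h => hne (by rw [h])
    rw [Int.gcd_natCast_natCast, gcd_prod x hxcop]
    set k := (S p ∩ S q).card with hk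
    have h4 := hcardSS p q hpq
    have hS := hcardS p
    have hle : ∏ v ∈ S p ∩ S q, x v ≤ ((n + 1) * T) ^ k := by
      calc ∏ v ∈ S p ∩ S q, x v ≤ ∏ _v ∈ S p ∩ S q, ((n + 1) * T) :=
            Finset.prod_le_prod' fun v _ => hxu v
        _ = _ := by rw [Finset.prod_const]
    have hge : T ^ (2 * k) ≤ a p := by
      calc T ^ (2 * k) ≤ T ^ (S p).card := Nat.pow_le_pow_right hT1 (by omega)
        _ = ∏ _v ∈ S p, T := by rw [Finset.prod_const]
        _ ≤ a p := Finset.prod_le_prod' fun v _ => hxl v
    have hTr : (0 : ℝ) < T := by exact_mod_cast hT1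
    have hmax : ((T : ℝ) ^ (2 * k)) ≤ ((max |(a p : ℤ)| |(a q : ℤ)| : ℤ) : ℝ) := by
      have : ((T ^ (2 * k) : ℕ) : ℤ) ≤ max |(a p : ℤ)| |(a q : ℤ)| := by
        refine le_trans ?_ (le_max_left _ _)
        rw [Nat.abs_cast]
        exact_mod_cast hge
      exact_mod_cast this
    calc ((∏ v ∈ S p ∩ S q, x v : ℕ) : ℝ) ≤ ((((n + 1) * T) ^ k : ℕ) : ℝ) := by exact_mod_cast hle
      _ = (((n : ℝ) + 1) * T) ^ k := by push_cast; ring
      _ ≤ ((T : ℝ) ^ s * T) ^ k := by gcongr
      _ = ((T : ℝ) ^ (2 * θ)) ^ k := by
          congr 1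
          rw [show (2 * θ) = s + 1 by simp only [hs]; ring, Real.rpow_add hTr, Real.rpow_one]
      _ = ((T : ℝ) ^ (2 * k)) ^ θ := by
          rw [← Real.rpow_natCast ((T : ℝ) ^ (2 * θ)) k, ← Real.rpow_mul hTr.le,
            ← Real.rpow_natCast (T : ℝ) (2 * k), ← Real.rpow_mul hTr.le]
          congr 1
          push_cast
          ring
      _ ≤ _ := Real.rpow_le_rpow (by positivity) hmax (by linarith)
  · have : 0 < u := Finset.prod_pos fun v _ => by have := hx1 v; omega
    exact_mod_cast this.ne'
  · have hprod : ∀ j : Fin m, a (j, true) * a (j, false) = u := by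
      intro j
      simp only [a]
      rw [← Finset.prod_union]
      · congr 1
        ext v
        simp only [S, Finset.mem_union, Finset.mem_filter, Finset.mem_univ, true_and, iff_true]
        cases v j <;> simp
      · rw [Finset.disjoint_left]
        intro v hv hv'
        have e1 := (Finset.mem_filter.mp hv).2
        have e2 := (Finset.mem_filter.mp hv').2
        simp only at e1 e2
        rw [e1] at e2
        exact absurd e2 (by decide)
    have hinj : Function.Injective fun j : Fin m => ((a (j, true) : ℤ), (a (j, false) : ℤ)) := by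
      intro j j' h
      by_contra hne
      have h0 : (a (j, true) : ℤ) = (a (j', true) : ℤ) := (Prod.ext_iff.mp h).1
      have h1 : a (j, true) = a (j', true) := by exact_mod_cast h0
      let v : I := Function.update (fun _ => false) j true
      have hv : v ∈ S (j, true) := Finset.mem_filter.mpr ⟨Finset.mem_univ _, by simp [v]⟩
      have hv' : v ∉ S (j', true) := by
        intro hmem
        have e1 := (Finset.mem_filter.mp hmem).2
        simp only [v] at e1
        rw [Function.update_of_ne (Ne.symm hne)] at e1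
        exact absurd e1 (by decide)
      have hd : x v ∣ a (j', true) := by
        rw [← h1]
        exact Finset.dvd_prod_of_mem x hv
      have hc : Nat.Coprime (x v) (a (j', true)) := by
        apply Nat.Coprime.prod_right
        intro w hw
        exact hxcop v w (fun h => hv' (h ▸ hw))
      have := Nat.Coprime.eq_one_of_dvd hc hd
      have h2 := hx1 v
      omega
    calc N = (univ : Finset (Fin m)).card := by simp [hm]
      _ ≤ _ := by
          refine Finset.card_le_card_of_injOn
            (fun j : Fin m => ((a (j, true) : ℤ), (a (j, false) : ℤ))) ?_ (hinj.injOn)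
          intro j _
          refine Finset.mem_coe.mpr (mem_facs.mpr ⟨⟨?_, ?_⟩, ?_⟩)
          · exact Finset.mem_image.mpr ⟨(j, true), Finset.mem_univ _, rfl⟩
          · exact Finset.mem_image.mpr ⟨(j, false), Finset.mem_univ _, rfl⟩
          · have := hprod j
            show (a (j, true) : ℤ) * (a (j, false) : ℤ) = (u : ℤ)
            exact_mod_cast this

end Pool.Agent.V11122.Gcd
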