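import Pool.Agent.V11122.Gcd.Energy
import Pool.Agent.V11122.Gcd.Sharp

set_option autoImplicit false

/-! Explicit constant for `G = 1`. -/

namespace Pool.Agent.V11122.Gcd

open Finset

open Classical in
theorem half_le {θ : ℝ} (h0 : 0 ≤ θ) (h1 : θ < 1 / 2) {A B : Finset ℤ} {u : ℤ} (hu : u ≠ 0)
    (hU : 1 < u.natAbs) (F : Finset (ℤ × ℤ)) (hF : F ⊆ facs A B u) (π : ℤ × ℤ → ℤ)
    (hπ : π = Prod.fst ∨ π = Prod.snd) (hs : ∀ p ∈ F, u.natAbs ≤ (π p).natAbs ^ 2) (K : ℝ)
    (hK0 : 0 ≤ K) (hK : ∀ p ∈ F, ((F.filter fun q => Close θ 1 (π p) (π q)).card : ℝ) ≤ K) :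
    (F.card : ℝ) ≤ 4 * K / (1 - 2 * θ) := by
  have hθ : 0 < 1 - 2 * θ := by linarith
  have h := half (G := 1) (τ := 0) h0 h1 le_rfl A B u hu hU (by simp) F hF π hπ hs
    (fun p q => Close θ 1 (π p) (π q)) (fun _ _ => Iff.rfl)
  have h2 : ∑ p ∈ F, ((F.filter fun q => Close θ 1 (π p) (π q)).card : ℝ) ≤ K * F.card := by
    calc _ ≤ ∑ _p ∈ F, K := Finset.sum_le_sum hK
      _ = K * F.card := by rw [Finset.sum_const, nsmul_eq_mul]; ring
  have h3 : (F.card : ℝ) * (F.card * (1 - 2 * θ)) ≤ F.card * (4 * K) := by nlinarith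
  rcases (Nat.cast_nonneg F.card : (0 : ℝ) ≤ F.card).eq_or_lt with h4 | h4
  · rw [← h4]
    positivity
  · rw [le_div_iff₀ hθ]
    exact le_of_mul_le_mul_left h3 h4

open Classical in
/-- **Explicit pointwise bound.** -/
theorem explicit (θ : ℝ) (h0 : 0 ≤ θ) (h1 : θ < 1 / 2) (A B : Finset ℤ) (K : ℕ) (u : ℤ)
    (hu : u ≠ 0) (hA : ∀ a ∈ A, deg θ 1 A a ≤ K) (hB : ∀ b ∈ B, deg θ 1 B b ≤ K) :
    ((facs A B u).card : ℝ) ≤ 8 * K / (1 - 2 * θ) := by
  have hθ : 0 < 1 - 2 * θ := by linarith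
  have hK0 : (0 : ℝ) ≤ K := Nat.cast_nonneg _
  rcases (facs A B u).eq_empty_or_nonempty with he | ⟨p0, hp0⟩
  · rw [he, Finset.card_empty, Nat.cast_zero]
    positivity
  have hK1 : (1 : ℝ) ≤ K := by
    have hpA := (mem_facs.mp hp0).1.1
    have h2 : 0 < deg θ 1 A p0.1 :=
      Finset.card_pos.mpr ⟨p0.1, Finset.mem_filter.mpr ⟨hpA, Or.inl rfl⟩⟩
    have h3 := hA p0.1 hpA
    exact_mod_cast (by omega : 1 ≤ K)
  by_cases hU : 1 < u.natAbs
  · set F1 := (facs A B u).filter fun p => u.natAbs ≤ p.1.natAbs ^ 2 with hF1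
    set F2 := (facs A B u).filter fun p => u.natAbs ≤ p.2.natAbs ^ 2 with hF2
    have e1 := half_le h0 h1 hu hU F1 (Finset.filter_subset _ _) Prod.fst (Or.inl rfl)
      (fun p hp => (Finset.mem_filter.mp hp).2) K hK0 (fun p hp => by
        have hpm := (mem_facs.mp (Finset.mem_filter.mp hp).1).1
        refine le_trans ?_ (Nat.cast_le.mpr (hA p.1 hpm.1))
        refine Nat.cast_le.mpr (Finset.card_le_card_of_injOn Prod.fst ?_ ?_)
        · intro q hq
          have hq' := Finset.mem_filter.mp hq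
          exact Finset.mem_filter.mpr
            ⟨(mem_facs.mp (Finset.mem_filter.mp hq'.1).1).1.1, hq'.2⟩
        · intro q hq q' hq' h
          exact snd_eq hu (Finset.mem_filter.mp (Finset.mem_filter.mp hq).1).1
            (Finset.mem_filter.mp (Finset.mem_filter.mp hq').1).1 h)
    have e2 := half_le h0 h1 hu hU F2 (Finset.filter_subset _ _) Prod.snd (Or.inr rfl)
      (fun p hp => (Finset.mem_filter.mp hp).2) K hK0 (fun p hp => by
        have hpm := (mem_facs.mp (Finset.mem_filter.mp hp).1).1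
        refine le_trans ?_ (Nat.cast_le.mpr (hB p.2 hpm.2))
        refine Nat.cast_le.mpr (Finset.card_le_card_of_injOn Prod.snd ?_ ?_)
        · intro q hq
          have hq' := Finset.mem_filter.mp hq
          exact Finset.mem_filter.mpr
            ⟨(mem_facs.mp (Finset.mem_filter.mp hq'.1).1).1.2, hq'.2⟩
        · intro q hq q' hq' h
          exact fst_eq hu (Finset.mem_filter.mp (Finset.mem_filter.mp hq).1).1
            (Finset.mem_filter.mp (Finset.mem_filter.mp hq').1).1 h)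
    have hcard : ((facs A B u).card : ℝ) ≤ F1.card + F2.card := by
      have := (Finset.card_le_card (split_facs A B u)).trans (Finset.card_union_le _ _)
      exact_mod_cast this
    have : 8 * (K : ℝ) / (1 - 2 * θ) = 4 * K / (1 - 2 * θ) + 4 * K / (1 - 2 * θ) := by ring
    rw [this]
    linarith
  · have hU1 : u.natAbs = 1 := by
      have := Int.natAbs_pos.mpr hu
      omega
    have h2 := card_facs_le A B u hu
    rw [hU1, Nat.divisors_one, Finset.card_singleton] at h2
    have h3 : ((facs A B u).card : ℝ) ≤ 2 := by exact_mod_cast h2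
    refine h3.trans ?_
    rw [le_div_iff₀ hθ]
    linarith

end Pool.Agent.V11122.Gcd
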