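import Pool.Agent.V11122.Gcd.Core

set_option autoImplicit false

/-! Factorisations of an integer with factors in two finite sets and greatest common divisors. -/

namespace Pool.Agent.V11122.Gcd

open Finset

/-- `a` and `c` are close: they are equal, or their greatest common divisor exceeds
`G * max (|a|, |c|) ^ θ`. -/
def Close (θ G : ℝ) (a c : ℤ) : Prop :=
  a = c ∨ G * ((max |a| |c| : ℤ) : ℝ) ^ θ < (Int.gcd a c : ℝ)

/-- the factorisations `u = a * b` with `a ∈ A` and `b ∈ B` -/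
def facs (A B : Finset ℤ) (u : ℤ) : Finset (ℤ × ℤ) :=
  (A ×ˢ B).filter fun p => p.1 * p.2 = u

open Classical in
/-- the pairs of factorisations of `u` in which the first factors are close or the second factors
are close -/
noncomputable def closeFacs (θ G : ℝ) (A B : Finset ℤ) (u : ℤ) : Finset ((ℤ × ℤ) × (ℤ × ℤ)) :=
  (facs A B u ×ˢ facs A B u).filter fun w =>
    (Close θ G w.1.1 w.2.1 ∨ Close θ G w.1.2 w.2.2)

theorem mem_facs {A B : Finset ℤ} {u : ℤ} {p : ℤ × ℤ} :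
    p ∈ facs A B u ↔ (p.1 ∈ A ∧ p.2 ∈ B) ∧ p.1 * p.2 = u := by
  simp [facs]

theorem log_gcd_le {θ G : ℝ} {a c : ℤ} (ha : a ≠ 0) (hc : c ≠ 0) (hG : 1 ≤ G) (h0 : 0 ≤ θ)
    (h : ¬ Close θ G a c) : Real.log (Nat.gcd a.natAbs c.natAbs) ≤
      Real.log G + θ * max (Real.log a.natAbs) (Real.log c.natAbs) := by
  have h1 : (Int.gcd a c : ℝ) ≤ G * ((max |a| |c| : ℤ) : ℝ) ^ θ := by
    by_contra hcon
    exact h (Or.inr (not_le.mp hcon))
  have hm : ((max |a| |c| : ℤ) : ℝ) = max (a.natAbs : ℝ) (c.natAbs : ℝ) := by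
    rw [Int.cast_max, Int.cast_abs, Int.cast_abs, Nat.cast_natAbs, Nat.cast_natAbs, Int.cast_abs,
      Int.cast_abs]
  have hap : (0 : ℝ) < a.natAbs := by exact_mod_cast Int.natAbs_pos.mpr ha
  have hcp : (0 : ℝ) < c.natAbs := by exact_mod_cast Int.natAbs_pos.mpr hc
  have hmp : (0 : ℝ) < max (a.natAbs : ℝ) (c.natAbs : ℝ) := lt_max_of_lt_left hap
  have hg : (0 : ℝ) < Int.gcd a c := by
    exact_mod_cast Nat.pos_of_ne_zero (fun h0 => ha (Int.gcd_eq_zero_iff.mp h0).1)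
  rw [hm] at h1
  have h2 := Real.log_le_log hg h1
  rw [Real.log_mul (by linarith) (by positivity), Real.log_rpow hmp] at h2
  have h3 : Real.log (max (a.natAbs : ℝ) (c.natAbs : ℝ)) ≤
      max (Real.log a.natAbs) (Real.log c.natAbs) := by
    rcases max_choice (a.natAbs : ℝ) (c.natAbs : ℝ) with h | h <;> rw [h]
    · exact le_max_left _ _
    · exact le_max_right _ _
  have h4 := mul_le_mul_of_nonneg_left h3 h0
  have h5 : (Int.gcd a c : ℝ) = ((Nat.gcd a.natAbs c.natAbs : ℕ) : ℝ) := by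
    rw [Int.gcd_def]
  rw [h5] at h2
  linarith

theorem sum_card_filter {ι : Type*} (s : Finset ι) (R : ι → ι → Prop)
    [∀ i j, Decidable (R i j)] :
    ∑ i ∈ s, (s.filter fun j => R i j).card = ((s ×ˢ s).filter fun w => R w.1 w.2).card := by
  rw [Finset.card_filter, Finset.sum_product]
  exact Finset.sum_congr rfl fun i _ => Finset.card_filter _ _

/-- The two halves of the factorisations of a large integer. -/
theorem half {θ G τ : ℝ} (h0 : 0 ≤ θ) (h1 : θ < 1 / 2) (hG : 1 ≤ G)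
    (A B : Finset ℤ) (u : ℤ) (hu : u ≠ 0) (hU : 1 < u.natAbs)
    (hg : Real.log G ≤ τ * Real.log u.natAbs) (F : Finset (ℤ × ℤ)) (hF : F ⊆ facs A B u)
    (π : ℤ × ℤ → ℤ) (hπ : π = Prod.fst ∨ π = Prod.snd)
    (hs : ∀ p ∈ F, u.natAbs ≤ (π p).natAbs ^ 2) (R : ℤ × ℤ → ℤ × ℤ → Prop)
    [∀ i j, Decidable (R i j)] (hR : ∀ p q, R p q ↔ Close θ G (π p) (π q)) :
    (F.card : ℝ) ^ 2 * ((1 - 2 * θ) / 4 - τ) ≤ ∑ i ∈ F, ((F.filter fun j => R i j).card : ℝ) := by
  have hdvd : ∀ p ∈ F, π p ∣ u := by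
    intro p hp
    have h := (mem_facs.mp (hF hp)).2
    rcases hπ with rfl | rfl
    · exact ⟨p.2, h.symm⟩
    · exact ⟨p.1, by rw [mul_comm]; exact h.symm⟩
  have hne : ∀ p ∈ F, π p ≠ 0 := fun p hp h => hu (by
    have := hdvd p hp
    rw [h] at this
    exact zero_dvd_iff.mp this)
  refine core F (fun p => (π p).natAbs) u.natAbs hU (fun p hp => Int.natAbs_dvd_natAbs.mpr (hdvd p hp))
    hs θ (Real.log G) τ h0 h1 hg (Real.log_nonneg hG) R (fun p hp q hq hpq => ?_)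
  exact log_gcd_le (hne p hp) (hne q hq) hG h0 (fun h => hpq ((hR p q).mpr h))

theorem split_facs (A B : Finset ℤ) (u : ℤ) :
    facs A B u ⊆ ((facs A B u).filter fun p => u.natAbs ≤ p.1.natAbs ^ 2) ∪
      ((facs A B u).filter fun p => u.natAbs ≤ p.2.natAbs ^ 2) := by
  intro p hp
  rw [Finset.mem_union, Finset.mem_filter, Finset.mem_filter]
  by_contra hcon
  push Not at hcon
  have h1 := hcon.1 hp
  have h2 := hcon.2 hp
  have h3 := (mem_facs.mp hp).2
  have h4 : u.natAbs = p.1.natAbs * p.2.natAbs := by rw [← h3, Int.natAbs_mul]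
  rw [h4] at h1 h2
  have h5 : (p.1.natAbs * p.2.natAbs) ^ 2 = p.1.natAbs ^ 2 * p.2.natAbs ^ 2 := by ring
  nlinarith

/-- Large integers. -/
theorem facs_sq_large {θ G τ : ℝ} (h0 : 0 ≤ θ) (h1 : θ < 1 / 2) (hG : 1 ≤ G)
    (A B : Finset ℤ) (u : ℤ) (hu : u ≠ 0) (hU : 1 < u.natAbs)
    (hg : Real.log G ≤ τ * Real.log u.natAbs) (hτ : τ < (1 - 2 * θ) / 4) :
    ((facs A B u).card : ℝ) ^ 2 * ((1 - 2 * θ) / 4 - τ) ≤ 4 * ((closeFacs θ G A B u).card : ℝ) := by
  classical
  set F := facs A B u with hF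
  set F1 := F.filter fun p => u.natAbs ≤ p.1.natAbs ^ 2 with hF1
  set F2 := F.filter fun p => u.natAbs ≤ p.2.natAbs ^ 2 with hF2
  have e1 := half h0 h1 hG A B u hu hU hg F1 (Finset.filter_subset _ _) Prod.fst (Or.inl rfl)
    (fun p hp => (Finset.mem_filter.mp hp).2) (fun p q => Close θ G p.1 q.1) (fun _ _ => Iff.rfl)
  have e2 := half h0 h1 hG A B u hu hU hg F2 (Finset.filter_subset _ _) Prod.snd (Or.inr rfl)
    (fun p hp => (Finset.mem_filter.mp hp).2) (fun p q => Close θ G p.2 q.2) (fun _ _ => Iff.rfl)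
  have c1 : ∑ i ∈ F1, ((F1.filter fun j => Close θ G i.1 j.1).card : ℝ) ≤
      ((closeFacs θ G A B u).card : ℝ) := by
    rw [← Nat.cast_sum, sum_card_filter F1 (fun i j => Close θ G i.1 j.1)]
    have : ((F1 ×ˢ F1).filter fun w => Close θ G w.1.1 w.2.1) ⊆ closeFacs θ G A B u := by
      intro w hw
      rw [Finset.mem_filter, Finset.mem_product] at hw
      rw [closeFacs, Finset.mem_filter, Finset.mem_product]
      exact ⟨⟨Finset.filter_subset _ _ hw.1.1, Finset.filter_subset _ _ hw.1.2⟩, Or.inl hw.2⟩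
    exact_mod_cast Finset.card_le_card this
  have c2 : ∑ i ∈ F2, ((F2.filter fun j => Close θ G i.2 j.2).card : ℝ) ≤
      ((closeFacs θ G A B u).card : ℝ) := by
    rw [← Nat.cast_sum, sum_card_filter F2 (fun i j => Close θ G i.2 j.2)]
    have : ((F2 ×ˢ F2).filter fun w => Close θ G w.1.2 w.2.2) ⊆ closeFacs θ G A B u := by
      intro w hw
      rw [Finset.mem_filter, Finset.mem_product] at hw
      rw [closeFacs, Finset.mem_filter, Finset.mem_product]
      exact ⟨⟨Finset.filter_subset _ _ hw.1.1, Finset.filter_subset _ _ hw.1.2⟩, Or.inr hw.2⟩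
    exact_mod_cast Finset.card_le_card this
  have hcard : (F.card : ℝ) ≤ F1.card + F2.card := by
    have := (Finset.card_le_card (split_facs A B u)).trans (Finset.card_union_le _ _)
    exact_mod_cast this
  have hpos : 0 < (1 - 2 * θ) / 4 - τ := by linarith
  have hsq : (F.card : ℝ) ^ 2 ≤ 2 * (F1.card : ℝ) ^ 2 + 2 * (F2.card : ℝ) ^ 2 := by
    have h3 : (0 : ℝ) ≤ F.card := Nat.cast_nonneg _
    nlinarith [sq_nonneg ((F1.card : ℝ) - F2.card)]
  have := mul_le_mul_of_nonneg_right hsq hpos.le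
  linarith

end Pool.Agent.V11122.Gcd
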