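import Pool.Agent.V11122.Gcd.Fac

set_option autoImplicit false

/-! Few close pairs, few factorisations. -/

namespace Pool.Agent.V11122.Gcd

open Finset

lemma divisor_bound (δ : ℝ) (hδ : 0 < δ) :
    ∃ C : ℝ, 0 < C ∧ ∀ n : ℕ, n ≠ 0 → ((n.divisors.card : ℕ) : ℝ) ≤ C * (n : ℝ) ^ δ := by
  have hlog : 0 < Real.log 2 := Real.log_pos (by norm_num)
  have hδl : 0 < δ * Real.log 2 := mul_pos hδ hlog
  set M : ℝ := max 1 (1 / (δ * Real.log 2)) with hM
  have hM1 : 1 ≤ M := le_max_left _ _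
  have hM2 : 1 ≤ M * (δ * Real.log 2) := by
    have : 1 / (δ * Real.log 2) ≤ M := le_max_right _ _
    calc (1 : ℝ) = 1 / (δ * Real.log 2) * (δ * Real.log 2) := by
          field_simp
      _ ≤ M * (δ * Real.log 2) := mul_le_mul_of_nonneg_right this hδl.le
  set K : ℕ := ⌈(2 : ℝ) ^ (1 / δ)⌉₊ with hK
  have hKle : (2 : ℝ) ^ (1 / δ) ≤ (K : ℝ) := Nat.le_ceil _
  refine ⟨M ^ K, by positivity, ?_⟩
  intro n hn
  have hbase : ∀ p ∈ n.primeFactors, (((n.factorization p + 1 : ℕ)) : ℝ) ≤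
      (if p < K then M else 1) * (((p : ℝ) ^ (n.factorization p)) ^ δ) := by
    intro p hp
    have hpp : p.Prime := Nat.prime_of_mem_primeFactors hp
    set a := n.factorization p with ha
    have hp2 : (2 : ℝ) ≤ (p : ℝ) := by exact_mod_cast hpp.two_le
    have hp0 : (0 : ℝ) ≤ (p : ℝ) := by positivity
    have hpow : (((p : ℝ) ^ a) ^ δ) = ((p : ℝ) ^ δ) ^ a := by
      rw [← Real.rpow_natCast (p : ℝ) a, ← Real.rpow_mul hp0, ← Real.rpow_natCast ((p : ℝ) ^ δ) a,
        ← Real.rpow_mul hp0, mul_comm]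
    rw [hpow]
    split_ifs with hlt
    · have h1 : (2 : ℝ) ^ δ ≤ (p : ℝ) ^ δ := Real.rpow_le_rpow (by norm_num) hp2 hδ.le
      have h2 : ((2 : ℝ) ^ δ) ^ a ≤ ((p : ℝ) ^ δ) ^ a :=
        pow_le_pow_left₀ (by positivity) h1 a
      have h3 : 1 + (a : ℝ) * (δ * Real.log 2) ≤ ((2 : ℝ) ^ δ) ^ a := by
        have : ((2 : ℝ) ^ δ) ^ a = Real.exp ((a : ℝ) * (δ * Real.log 2)) := by
          rw [← Real.rpow_natCast, ← Real.rpow_mul (by norm_num), Real.rpow_def_of_pos (by norm_num)]
          congr 1; ring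
        rw [this]
        have := Real.add_one_le_exp ((a : ℝ) * (δ * Real.log 2))
        linarith
      have h4 : (((a + 1 : ℕ)) : ℝ) ≤ M * (1 + (a : ℝ) * (δ * Real.log 2)) := by
        push_cast
        have ha0 : (0 : ℝ) ≤ (a : ℝ) := by positivity
        nlinarith [mul_le_mul_of_nonneg_left hM2 ha0]
      calc (((a + 1 : ℕ)) : ℝ) ≤ M * (1 + (a : ℝ) * (δ * Real.log 2)) := h4
        _ ≤ M * (((p : ℝ) ^ δ) ^ a) :=
          mul_le_mul_of_nonneg_left (h3.trans h2) (by linarith)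
    · have hKp : (K : ℝ) ≤ (p : ℝ) := by exact_mod_cast not_lt.mp hlt
      have h1 : (2 : ℝ) ≤ (p : ℝ) ^ δ := by
        have h5 : ((2 : ℝ) ^ (1 / δ)) ^ δ ≤ (p : ℝ) ^ δ :=
          Real.rpow_le_rpow (by positivity) (hKle.trans hKp) hδ.le
        have h6 : ((2 : ℝ) ^ (1 / δ)) ^ δ = 2 := by
          rw [← Real.rpow_mul (by norm_num)]
          rw [one_div, inv_mul_cancel₀ hδ.ne', Real.rpow_one]
        rwa [h6] at h5
      have h2 : (2 : ℝ) ^ a ≤ ((p : ℝ) ^ δ) ^ a := pow_le_pow_left₀ (by norm_num) h1 a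
      have h3 : (((a + 1 : ℕ)) : ℝ) ≤ (2 : ℝ) ^ a := by
        have : a + 1 ≤ 2 ^ a := Nat.lt_two_pow_self
        exact_mod_cast this
      rw [one_mul]
      exact h3.trans h2
  have hn' : (n : ℝ) ^ δ = ∏ p ∈ n.primeFactors, (((p : ℝ) ^ (n.factorization p)) ^ δ) := by
    rw [Real.finsetProd_rpow _ _ (fun i _ => by positivity)]
    congr 1
    have := Nat.prod_factorization_pow_eq_self hn
    conv_lhs => rw [← this]
    rw [Finsupp.prod]
    push_cast
    rfl
  rw [Nat.card_divisors hn]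
  push_cast
  calc (∏ p ∈ n.primeFactors, ((n.factorization p : ℝ) + 1))
      ≤ ∏ p ∈ n.primeFactors, ((if p < K then M else 1) * (((p : ℝ) ^ (n.factorization p)) ^ δ)) := by
        apply Finset.prod_le_prod
        · intro i _; positivity
        · intro i hi
          have := hbase i hi
          push_cast at this
          exact this
    _ = (∏ p ∈ n.primeFactors, (if p < K then M else 1)) * (n : ℝ) ^ δ := by
        rw [Finset.prod_mul_distrib, hn']
    _ ≤ M ^ K * (n : ℝ) ^ δ := by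
        apply mul_le_mul_of_nonneg_right _ (by positivity)
        rw [Finset.prod_ite, Finset.prod_const, Finset.prod_const_one, mul_one]
        apply pow_le_pow_right₀ hM1
        calc (n.primeFactors.filter (fun p => p < K)).card ≤ (Finset.range K).card := by
              apply Finset.card_le_card
              intro x hx
              simp only [Finset.mem_filter] at hx
              exact Finset.mem_range.mpr hx.2
          _ = K := Finset.card_range K



/-- The number of factorisations is at most twice the number of divisors. -/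
theorem card_facs_le (A B : Finset ℤ) (u : ℤ) (hu : u ≠ 0) :
    (facs A B u).card ≤ 2 * u.natAbs.divisors.card := by
  classical
  have hinj : Set.InjOn Prod.fst (facs A B u : Set (ℤ × ℤ)) := by
    intro p hp q hq h
    have h1 := (mem_facs.mp hp).2
    have h2 := (mem_facs.mp hq).2
    have h3 : p.1 ≠ 0 := fun h0 => hu (by rw [← h1, h0, zero_mul])
    refine Prod.ext h ?_
    rw [← h2, ← h] at h1
    exact mul_left_cancel₀ h3 h1
  rw [← Finset.card_image_of_injOn hinj]
  have hsub : (facs A B u).image Prod.fst ⊆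
      u.natAbs.divisors.image (fun d : ℕ => (d : ℤ)) ∪
      u.natAbs.divisors.image (fun d : ℕ => -(d : ℤ)) := by
    intro z hz
    obtain ⟨p, hp, rfl⟩ := Finset.mem_image.mp hz
    have h1 := (mem_facs.mp hp).2
    have h2 : p.1.natAbs ∈ u.natAbs.divisors :=
      Nat.mem_divisors.mpr ⟨Int.natAbs_dvd_natAbs.mpr ⟨p.2, h1.symm⟩, Int.natAbs_ne_zero.mpr hu⟩
    rw [Finset.mem_union, Finset.mem_image, Finset.mem_image]
    rcases Int.natAbs_eq p.1 with h | h
    · exact Or.inl ⟨_, h2, h.symm⟩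
    · exact Or.inr ⟨_, h2, h.symm⟩
  refine (Finset.card_le_card hsub).trans ((Finset.card_union_le _ _).trans ?_)
  have := add_le_add (Finset.card_image_le (s := u.natAbs.divisors) (f := fun d : ℕ => (d : ℤ)))
    (Finset.card_image_le (s := u.natAbs.divisors) (f := fun d : ℕ => -(d : ℤ)))
  omega

theorem card_facs_le_close (θ G : ℝ) (A B : Finset ℤ) (u : ℤ) :
    (facs A B u).card ≤ (closeFacs θ G A B u).card := by
  classical
  refine Finset.card_le_card_of_injOn (fun p => (p, p)) ?_ ?_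
  · intro p hp
    show (p, p) ∈ (closeFacs θ G A B u : Set ((ℤ × ℤ) × (ℤ × ℤ)))
    rw [Finset.mem_coe, closeFacs, Finset.mem_filter, Finset.mem_product]
    exact ⟨⟨hp, hp⟩, Or.inl (Or.inl rfl)⟩
  · intro p _ q _ h
    exact (Prod.ext_iff.mp h).1

/-- **Pointwise inequality.** -/
theorem facs_sq (θ ε : ℝ) (h0 : 0 ≤ θ) (h1 : θ < 1 / 2) (hε : 0 < ε) :
    ∃ M : ℝ, 0 < M ∧ ∀ (A B : Finset ℤ) (G : ℝ) (u : ℤ), 1 ≤ G → u ≠ 0 →
      ((facs A B u).card : ℝ) ^ 2 ≤ M * G ^ ε * ((closeFacs θ G A B u).card : ℝ) := by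
  have hθ : 0 < 1 - 2 * θ := by linarith
  set C : ℝ := 8 / (1 - 2 * θ) with hC
  have hCpos : 0 < C := by positivity
  obtain ⟨D, hD, hdiv⟩ := divisor_bound (ε / C) (by positivity)
  refine ⟨32 / (1 - 2 * θ) + 2 * D, by positivity, fun A B G u hG hu => ?_⟩
  have hG0 : 0 < G := by linarith
  have hGe : 1 ≤ G ^ ε := Real.one_le_rpow hG hε.le
  set r : ℝ := ((facs A B u).card : ℝ) with hr
  set T : ℝ := ((closeFacs θ G A B u).card : ℝ) with hT
  have hr0 : 0 ≤ r := Nat.cast_nonneg _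
  have hT0 : 0 ≤ T := Nat.cast_nonneg _
  have hrT : r ≤ T := Nat.cast_le.mpr (card_facs_le_close θ G A B u)
  have hU0 : u.natAbs ≠ 0 := Int.natAbs_ne_zero.mpr hu
  by_cases hsmall : (u.natAbs : ℝ) ≤ G ^ C
  · have h2 : r ≤ 2 * (D * G ^ ε) := by
      have e1 : r ≤ 2 * (u.natAbs.divisors.card : ℝ) := by
        have e0 := card_facs_le A B u hu
        rw [hr]
        exact_mod_cast e0
      have e2 := hdiv u.natAbs hU0
      have e3 : (u.natAbs : ℝ) ^ (ε / C) ≤ G ^ ε := by
        calc (u.natAbs : ℝ) ^ (ε / C) ≤ (G ^ C) ^ (ε / C) :=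
              Real.rpow_le_rpow (Nat.cast_nonneg _) hsmall (by positivity)
          _ = G ^ ε := by rw [← Real.rpow_mul hG0.le]; congr 1; field_simp
      have e4 := mul_le_mul_of_nonneg_left e3 hD.le
      linarith
    calc r ^ 2 = r * r := sq r
      _ ≤ 2 * (D * G ^ ε) * T := mul_le_mul h2 hrT hr0 (by positivity)
      _ = (2 * D) * G ^ ε * T := by ring
      _ ≤ (32 / (1 - 2 * θ) + 2 * D) * G ^ ε * T := by
          have : 0 ≤ 32 / (1 - 2 * θ) * (G ^ ε * T) := by positivity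
          nlinarith
  · push Not at hsmall
    have hGC : 1 ≤ G ^ C := Real.one_le_rpow hG hCpos.le
    have hU : 1 < u.natAbs := by
      have : (1 : ℝ) < u.natAbs := lt_of_le_of_lt hGC hsmall
      exact_mod_cast this
    have hlog : Real.log G ≤ (1 - 2 * θ) / 8 * Real.log u.natAbs := by
      have h3 := Real.log_le_log (by positivity) hsmall.le
      rw [Real.log_rpow hG0, hC] at h3
      rw [div_mul_eq_mul_div, div_le_iff₀ hθ] at h3
      linarith
    have h4 := facs_sq_large h0 h1 hG A B u hu hU hlog (by linarith)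
    have h5 : r ^ 2 * (1 - 2 * θ) ≤ 32 * T := by
      have : (1 - 2 * θ) / 4 - (1 - 2 * θ) / 8 = (1 - 2 * θ) / 8 := by ring
      rw [this] at h4
      linarith
    have h6 : r ^ 2 ≤ 32 / (1 - 2 * θ) * T := by
      rw [div_mul_eq_mul_div, le_div_iff₀ hθ]
      exact h5
    calc r ^ 2 ≤ 32 / (1 - 2 * θ) * T := h6
      _ ≤ 32 / (1 - 2 * θ) * (G ^ ε * T) := by
          refine mul_le_mul_of_nonneg_left ?_ (by positivity)
          exact le_mul_of_one_le_left hT0 hGe
      _ ≤ (32 / (1 - 2 * θ) + 2 * D) * G ^ ε * T := by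
          have : 0 ≤ 2 * D * (G ^ ε * T) := by positivity
          nlinarith

theorem snd_eq {A B : Finset ℤ} {u : ℤ} (hu : u ≠ 0) {p q : ℤ × ℤ} (hp : p ∈ facs A B u)
    (hq : q ∈ facs A B u) (h : p.1 = q.1) : p = q := by
  have h1 := (mem_facs.mp hp).2
  have h2 := (mem_facs.mp hq).2
  have h3 : p.1 ≠ 0 := fun h0 => hu (by rw [← h1, h0, zero_mul])
  refine Prod.ext h ?_
  rw [← h2, ← h] at h1
  exact mul_left_cancel₀ h3 h1

theorem fst_eq {A B : Finset ℤ} {u : ℤ} (hu : u ≠ 0) {p q : ℤ × ℤ} (hp : p ∈ facs A B u)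
    (hq : q ∈ facs A B u) (h : p.2 = q.2) : p = q := by
  have h1 := (mem_facs.mp hp).2
  have h2 := (mem_facs.mp hq).2
  have h3 : p.2 ≠ 0 := fun h0 => hu (by rw [← h1, h0, mul_zero])
  refine Prod.ext ?_ h
  rw [← h2, ← h] at h1
  exact mul_right_cancel₀ h3 h1

open Classical in
/-- the number of elements of `A` close to `a` -/
noncomputable def deg (θ G : ℝ) (A : Finset ℤ) (a : ℤ) : ℕ := (A.filter fun c => Close θ G a c).card

open Classical in
theorem card_close_le {θ G : ℝ} {A B : Finset ℤ} {u : ℤ} (hu : u ≠ 0) {K : ℝ}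
    (hA : ∀ a ∈ A, (deg θ G A a : ℝ) ≤ K) (hB : ∀ b ∈ B, (deg θ G B b : ℝ) ≤ K) :
    ((closeFacs θ G A B u).card : ℝ) ≤ 2 * K * ((facs A B u).card : ℝ) := by
  have h1 : (closeFacs θ G A B u).card = ∑ p ∈ facs A B u, ((facs A B u).filter fun q =>
      (Close θ G p.1 q.1 ∨ Close θ G p.2 q.2)).card := by
    rw [closeFacs]
    exact (sum_card_filter (facs A B u)
      (fun p q => (Close θ G p.1 q.1 ∨ Close θ G p.2 q.2))).symm
  rw [h1, Nat.cast_sum]
  have h2 : ∀ p ∈ facs A B u, ((((facs A B u).filter fun q =>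
      (Close θ G p.1 q.1 ∨ Close θ G p.2 q.2)).card : ℕ) : ℝ) ≤ 2 * K := by
    intro p hp
    have hpm := (mem_facs.mp hp).1
    have e1 : ((facs A B u).filter fun q => Close θ G p.1 q.1).card ≤ deg θ G A p.1 := by
      refine Finset.card_le_card_of_injOn Prod.fst ?_ ?_
      · intro q hq
        have hq' := Finset.mem_filter.mp hq
        exact Finset.mem_filter.mpr ⟨(mem_facs.mp hq'.1).1.1, hq'.2⟩
      · intro q hq q' hq' h
        exact snd_eq hu (Finset.mem_filter.mp hq).1 (Finset.mem_filter.mp hq').1 h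
    have e2 : ((facs A B u).filter fun q => Close θ G p.2 q.2).card ≤ deg θ G B p.2 := by
      refine Finset.card_le_card_of_injOn Prod.snd ?_ ?_
      · intro q hq
        have hq' := Finset.mem_filter.mp hq
        exact Finset.mem_filter.mpr ⟨(mem_facs.mp hq'.1).1.2, hq'.2⟩
      · intro q hq q' hq' h
        exact fst_eq hu (Finset.mem_filter.mp hq).1 (Finset.mem_filter.mp hq').1 h
    have e3 : ((facs A B u).filter fun q => (Close θ G p.1 q.1 ∨ Close θ G p.2 q.2)).card ≤
        ((facs A B u).filter fun q => Close θ G p.1 q.1).card +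
        ((facs A B u).filter fun q => Close θ G p.2 q.2).card := by
      rw [Finset.filter_or]
      exact Finset.card_union_le _ _
    have e4 := hA p.1 hpm.1
    have e5 := hB p.2 hpm.2
    have e6 : ((((facs A B u).filter fun q => (Close θ G p.1 q.1 ∨ Close θ G p.2 q.2)).card : ℕ) : ℝ)
        ≤ (deg θ G A p.1 : ℝ) + deg θ G B p.2 := by
      exact_mod_cast e3.trans (add_le_add e1 e2)
    linarith
  calc _ ≤ ∑ _p ∈ facs A B u, 2 * K := Finset.sum_le_sum h2
    _ = 2 * K * ((facs A B u).card : ℝ) := by rw [Finset.sum_const, nsmul_eq_mul]; ring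

/-- bounded degrees, few factorisations -/
theorem le_of_sq_le {r T K c : ℝ} (hr : 0 ≤ r) (hc : 0 ≤ c) (hK : 0 ≤ K) (h : r ^ 2 ≤ c * T)
    (hT : T ≤ 2 * K * r) : r ≤ 2 * c * K := by
  rcases hr.eq_or_lt with h0 | h0
  · rw [← h0]; positivity
  · have : r * r ≤ r * (2 * c * K) := by nlinarith
    exact le_of_mul_le_mul_left this h0

/-- a bound for the product set along a graph -/
theorem graph_bound {A B : Finset ℤ} (hA : (0 : ℤ) ∉ A) (hB : (0 : ℤ) ∉ B) {N : ℝ}
    (h : ∀ u : ℤ, u ≠ 0 → ((facs A B u).card : ℝ) ≤ N) (H : Finset (ℤ × ℤ)) (hH : H ⊆ A ×ˢ B) :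
    (H.card : ℝ) ≤ N * ((H.image fun p => p.1 * p.2).card : ℝ) := by
  classical
  have h1 : H.card = ∑ u ∈ H.image (fun p => p.1 * p.2), (H.filter fun p => p.1 * p.2 = u).card :=
    Finset.card_eq_sum_card_image _ _
  rw [h1, Nat.cast_sum]
  calc _ ≤ ∑ _u ∈ H.image (fun p => p.1 * p.2), N := by
        refine Finset.sum_le_sum fun u hu => ?_
        obtain ⟨p, hp, rfl⟩ := Finset.mem_image.mp hu
        have hpm := Finset.mem_product.mp (hH hp)
        have hne : p.1 * p.2 ≠ 0 :=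
          mul_ne_zero (fun h0 => hA (h0 ▸ hpm.1)) (fun h0 => hB (h0 ▸ hpm.2))
        refine le_trans ?_ (h _ hne)
        have : (H.filter fun q => q.1 * q.2 = p.1 * p.2) ⊆ facs A B (p.1 * p.2) := by
          intro q hq
          have hq' := Finset.mem_filter.mp hq
          exact Finset.mem_filter.mpr ⟨hH hq'.1, hq'.2⟩
        exact_mod_cast Finset.card_le_card this
    _ = _ := by rw [Finset.sum_const, nsmul_eq_mul]; ring

end Pool.Agent.V11122.Gcd
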